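import Mathlib
import Pool.Prelude.Def_F_c31e40fa
import Pool.Agent.W677.MC8
import Pool.Agent.Y946.MB.Level

set_option autoImplicit false

/-!
# MP_fcb70f_an: the equipotentials of the Multibrot sets at the parameters with multiplier `-1`

Let `d ≥ 3` and let `ψ` be the normalised conformal map from the exterior of the closed unit disc
onto the complement of the Multibrot set `M_d`. There are `d - 1` parameters `c = α - α ^ d` for which
`z ^ d + c` has a fixed point (namely `α`) with multiplier `-1`. We show that the distance of such a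
parameter from the equipotential `{ψ z : |z| = 1 + h}` is exactly of the order `1 / log (1 / h)`.
If `M_d` is locally connected, then `ψ` extends continuously to the unit circle (Carathéodory), and
the theorem shows that the extension has at a point over each of these parameters a modulus of
continuity at least of the order `1 / log (1 / t)`; in particular it is not Hölder continuous.
-/

open Complex Filter Topology Metric Set N62a1eb23

namespace Pool.Agent.Results.MP_fcb70f_an.EquipotentialsAtMinusOne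

open Pool.Agent.H713R2 Pool.Agent.H712R2 Pool.Agent.W677.MC

theorem upper {d : ℕ} (hd : 2 ≤ d) {A : ℂ} (hA : A ^ (d - 1) = -1 / d) :
    ∃ C : ℝ, 0 < C ∧ ∀ ψ : ℂ → ℂ, IsExteriorMap (multibrotSet d) ψ →
      ∀ s : ℝ, 1 < s → s ≤ 2 → ∃ z : ℂ, ‖z‖ = s ∧
        ‖ψ z - cc d A 0‖ * (1 + Real.log (1 / (s - 1))) ≤ C := by
  obtain ⟨C₀, hC₀, hnear⟩ := nearG hd hA
  refine ⟨6 * (1 + C₀), by positivity, ?_⟩
  intro ψ hψ s hs hs2
  obtain ⟨L, hL⟩ : ∃ L, L = Real.log (1 / (s - 1)) := ⟨_, rfl⟩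
  have hh : 0 < s - 1 := by linarith
  have hL0 : 0 ≤ L := by
    rw [hL]
    apply Real.log_nonneg
    rw [le_div_iff₀ hh]
    linarith
  rw [← hL]
  rcases le_or_gt C₀ L with h | h
  · have hLpos : 0 < L := hC₀.trans_le h
    obtain ⟨z₀, hz1, hz2, hz3⟩ := hnear ψ hψ (C₀ / L) (by positivity) ((div_le_one hLpos).2 h)
    have h1 : C₀ / (C₀ / L) = L := by field_simp
    rw [h1, hL] at hz3
    have hz0 : 0 < ‖z₀‖ - 1 := by linarith
    have h2 : s ≤ ‖z₀‖ := by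
      have h3 := (Real.log_le_log_iff (by positivity) (by positivity)).1 hz3
      rw [one_div_le_one_div hz0 hh] at h3
      linarith
    obtain ⟨z, hz, hzd⟩ := Pool.Agent.Y946.MB.level_exact hψ (mem0 hd hA) hs h2
    refine ⟨z, hz, ?_⟩
    have h4 : ‖ψ z - cc d A 0‖ * (1 + L) ≤ C₀ / L * (1 + L) :=
      mul_le_mul_of_nonneg_right (hzd.trans hz2) (by linarith)
    have h5 : C₀ / L * (1 + L) = C₀ / L + C₀ := by field_simp
    have h6 : C₀ / L ≤ 1 := (div_le_one hLpos).2 h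
    rw [h5] at h4
    linarith
  · have hn : ‖(s : ℂ)‖ = s := by
      rw [Complex.norm_real, Real.norm_of_nonneg (by linarith)]
    refine ⟨s, hn, ?_⟩
    have h1 := P_le_two hd hψ (z := (s : ℂ)) (by rw [hn]; exact hs) 0
    rw [zero_add, P_one hd, pow_zero, pow_one, hn] at h1
    have h2 : ‖ψ s - cc d A 0‖ ≤ 6 := by
      have h3 := norm_sub_le (ψ s) (cc d A 0)
      have h4 := cc0_le hd hA
      linarith
    exact mul_le_mul h2 (by linarith) (by linarith) (by norm_num)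

theorem boundary_point {d : ℕ} {c : ℂ} {C : ℝ} {ψ F : ℂ → ℂ}
    (hup : ∀ s : ℝ, 1 < s → s ≤ 2 → ∃ z : ℂ, ‖z‖ = s ∧
        ‖ψ z - c‖ * (1 + Real.log (1 / (s - 1))) ≤ C)
    (hF : ContinuousOn F {z | 1 ≤ ‖z‖}) (hE : EqOn F ψ {z | 1 < ‖z‖}) :
    ∃ ζ : ℂ, ‖ζ‖ = 1 ∧ F ζ = c := by
  have hex : ∀ k : ℕ, ∃ z : ℂ, ‖z‖ = 1 + 1 / ((k : ℝ) + 1) ∧
      ‖ψ z - c‖ * (1 + Real.log ((k : ℝ) + 1)) ≤ C := by
    intro k
    have h0 : (0 : ℝ) < (k : ℝ) + 1 := by positivity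
    have h1 : 1 / ((k : ℝ) + 1) ≤ 1 := by
      rw [div_le_one h0]
      have : (0 : ℝ) ≤ k := Nat.cast_nonneg k
      linarith
    obtain ⟨z, hz, hz2⟩ := hup (1 + 1 / ((k : ℝ) + 1)) (by
      have : 0 < 1 / ((k : ℝ) + 1) := by positivity
      linarith) (by linarith)
    refine ⟨z, hz, ?_⟩
    rwa [add_sub_cancel_left, one_div_one_div] at hz2
  choose z hz1 hz2 using hex
  have hz1' : ∀ k, 1 < ‖z k‖ := by
    intro k
    rw [hz1 k]
    have : 0 < 1 / ((k : ℝ) + 1) := by positivity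
    linarith
  have hK : IsCompact ({w : ℂ | 1 ≤ ‖w‖} ∩ closedBall 0 2) := by
    apply (isCompact_closedBall (0 : ℂ) 2).inter_left
    exact isClosed_le continuous_const continuous_norm
  obtain ⟨ζ, hζ, φ, hφ, hlim⟩ := hK.tendsto_subseq (x := z) (fun k => ⟨(hz1' k).le, by
    rw [mem_closedBall_zero_iff, hz1 k]
    have h0 : (0 : ℝ) < (k : ℝ) + 1 := by positivity
    have h1 : 1 / ((k : ℝ) + 1) ≤ 1 := by
      rw [div_le_one h0]
      have : (0 : ℝ) ≤ k := Nat.cast_nonneg k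
      linarith
    linarith⟩)
  have hζ1 : ‖ζ‖ = 1 := by
    have h1 : Tendsto (fun k => ‖z (φ k)‖) atTop (𝓝 ‖ζ‖) := hlim.norm
    have h2 : Tendsto (fun k => ‖z k‖) atTop (𝓝 (1 + 0)) := by
      have h3 := (tendsto_one_div_add_atTop_nhds_zero_nat (𝕜 := ℝ)).const_add (1 : ℝ)
      refine h3.congr fun k => ?_
      rw [hz1 k]
    rw [add_zero] at h2
    exact tendsto_nhds_unique h1 (h2.comp hφ.tendsto_atTop)
  refine ⟨ζ, hζ1, ?_⟩
  have h1 : Tendsto (fun k => F (z (φ k))) atTop (𝓝 (F ζ)) := by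
    have h2 := (hF ζ hζ.1).tendsto
    refine h2.comp ?_
    rw [tendsto_nhdsWithin_iff]
    exact ⟨hlim, Eventually.of_forall fun k => (hz1' _).le⟩
  have h2 : Tendsto (fun k => ψ (z k) - c) atTop (𝓝 0) := by
    rw [tendsto_zero_iff_norm_tendsto_zero]
    have h3 : Tendsto (fun k : ℕ => C / (1 + Real.log ((k : ℝ) + 1))) atTop (𝓝 0) := by
      apply Tendsto.const_div_atTop
      apply tendsto_atTop_add_const_left
      apply Real.tendsto_log_atTop.comp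
      exact tendsto_atTop_add_const_right _ _ tendsto_natCast_atTop_atTop
    refine squeeze_zero (fun k => norm_nonneg _) (fun k => ?_) h3
    have h4 : 0 ≤ Real.log ((k : ℝ) + 1) := by
      apply Real.log_nonneg
      have : (0 : ℝ) ≤ k := Nat.cast_nonneg k
      linarith
    rw [le_div_iff₀ (by linarith)]
    exact hz2 k
  have h3 : Tendsto (fun k => F (z (φ k))) atTop (𝓝 c) := by
    have h4 := (h2.comp hφ.tendsto_atTop).add_const c
    rw [zero_add] at h4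
    refine h4.congr fun k => ?_
    simp only [Function.comp]
    rw [hE (hz1' (φ k))]
    ring
  exact tendsto_nhds_unique h1 h3

theorem not_holder {F : ℂ → ℂ} {ζ : ℂ} (hζ : ‖ζ‖ = 1) {a : ℝ} (ha : 0 < a)
    (h : ∀ z : ℂ, 1 < ‖z‖ → ‖z‖ ≤ 2 → a ≤ ‖F z - F ζ‖ * (1 + Real.log (1 / (‖z‖ - 1))))
    {K κ : ℝ} (hκ : 0 < κ) : ∃ z : ℂ, 1 < ‖z‖ ∧ ‖z‖ ≤ 2 ∧ K * ‖z - ζ‖ ^ κ < ‖F z - F ζ‖ := by
  by_contra hcon
  push Not at hcon
  have h1 : Tendsto (fun x : ℝ => |K| * (x ^ κ - Real.log x * x ^ κ)) (𝓝[>] 0) (𝓝 (|K| * (0 - 0))) := by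
    apply Tendsto.const_mul
    apply Tendsto.sub
    · have h2 : Tendsto (fun x : ℝ => x ^ κ) (𝓝 0) (𝓝 ((0 : ℝ) ^ κ)) :=
        (Real.continuousAt_rpow_const 0 κ (Or.inr hκ.le)).tendsto
      rw [Real.zero_rpow hκ.ne'] at h2
      exact h2.mono_left nhdsWithin_le_nhds
    · exact tendsto_log_mul_rpow_nhdsGT_zero hκ
  rw [sub_zero, mul_zero] at h1
  have h3 : ∀ᶠ x : ℝ in 𝓝[>] 0, |K| * (x ^ κ - Real.log x * x ^ κ) < a ∧ 0 < x ∧ x < 1 := by
    filter_upwards [h1.eventually (gt_mem_nhds ha), self_mem_nhdsWithin,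
      (gt_mem_nhds (zero_lt_one (α := ℝ))).filter_mono nhdsWithin_le_nhds] with x hx1 hx2 hx3
    exact ⟨hx1, hx2, hx3⟩
  obtain ⟨x, hx1, hx2, hx3⟩ := h3.exists
  have hn : ‖((1 + x : ℝ) : ℂ) * ζ‖ = 1 + x := by
    rw [norm_mul, hζ, mul_one, Complex.norm_real, Real.norm_of_nonneg (by linarith)]
  have h4 := h (((1 + x : ℝ) : ℂ) * ζ) (by rw [hn]; linarith) (by rw [hn]; linarith)
  have h5 := hcon (((1 + x : ℝ) : ℂ) * ζ) (by rw [hn]; linarith) (by rw [hn]; linarith)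
  have h6 : ‖((1 + x : ℝ) : ℂ) * ζ - ζ‖ = x := by
    have : ((1 + x : ℝ) : ℂ) * ζ - ζ = (x : ℂ) * ζ := by
      push_cast
      ring
    rw [this, norm_mul, hζ, mul_one, Complex.norm_real, Real.norm_of_nonneg hx2.le]
  rw [h6] at h5
  rw [hn, add_sub_cancel_left, one_div, Real.log_inv] at h4
  have hlog : Real.log x ≤ 0 := Real.log_nonpos hx2.le hx3.le
  have h7 : ‖F (((1 + x : ℝ) : ℂ) * ζ) - F ζ‖ * (1 + -Real.log x) ≤
      |K| * x ^ κ * (1 + -Real.log x) := by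
    apply mul_le_mul_of_nonneg_right _ (by linarith)
    exact h5.trans (mul_le_mul_of_nonneg_right (le_abs_self K) (by positivity))
  have h8 : |K| * x ^ κ * (1 + -Real.log x) = |K| * (x ^ κ - Real.log x * x ^ κ) := by ring
  rw [h8] at h7
  linarith

/-- **The equipotentials of `M_d` at the parameters with a fixed point of multiplier `-1`.** Let
`d ≥ 3`, `d α ^ (d - 1) = -1` and `c = α - α ^ d`. For the exterior map `ψ` of `M_d` the distance of
`c` from `{ψ z : |z| = s}` is between `a / (1 + log (1 / (s - 1)))` and `C / (1 + log (1 / (s - 1)))` for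
`1 < s ≤ 2`. If `ψ` has a continuous extension `F` to the closed exterior of the disc, then `F ζ = c`
for some `|ζ| = 1`, and `|F z - F ζ| ≥ a / (1 + log (1 / (|z| - 1)))` for `1 < |z| ≤ 2`; in particular
`F` is not Hölder continuous at `ζ`, for any exponent. -/
theorem result (d : ℕ) (hd : 3 ≤ d) (α : ℂ) (hα : (d : ℂ) * α ^ (d - 1) = -1) :
    (∃ ψ : ℂ → ℂ, IsExteriorMap (multibrotSet d) ψ) ∧
    ∃ a C : ℝ, 0 < a ∧ 0 < C ∧ ∀ ψ : ℂ → ℂ, IsExteriorMap (multibrotSet d) ψ →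
      (∀ z : ℂ, 1 < ‖z‖ → ‖z‖ ≤ 2 →
        a ≤ ‖ψ z - (α - α ^ d)‖ * (1 + Real.log (1 / (‖z‖ - 1)))) ∧
      (∀ s : ℝ, 1 < s → s ≤ 2 → ∃ z : ℂ, ‖z‖ = s ∧
        ‖ψ z - (α - α ^ d)‖ * (1 + Real.log (1 / (s - 1))) ≤ C) ∧
      ∀ F : ℂ → ℂ, ContinuousOn F {z | 1 ≤ ‖z‖} → EqOn F ψ {z | 1 < ‖z‖} →
        ∃ ζ : ℂ, ‖ζ‖ = 1 ∧ F ζ = α - α ^ d ∧
          (∀ z : ℂ, 1 < ‖z‖ → ‖z‖ ≤ 2 →
            a ≤ ‖F z - F ζ‖ * (1 + Real.log (1 / (‖z‖ - 1)))) ∧
          ∀ K κ : ℝ, 0 < κ → ∃ z : ℂ, 1 < ‖z‖ ∧ ‖z‖ ≤ 2 ∧ K * ‖z - ζ‖ ^ κ < ‖F z - F ζ‖ := by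
  have hd2 : 2 ≤ d := by omega
  have hd0 : (d : ℂ) ≠ 0 := by exact_mod_cast (show d ≠ 0 by omega)
  have hA : α ^ (d - 1) = -1 / d := by
    rw [eq_div_iff hd0, mul_comm]
    exact hα
  have hc : cc d α 0 = α - α ^ d := by
    unfold cc
    rw [add_zero]
  obtain ⟨β, hβ⟩ := exists_beta (d := d) hd2
  refine ⟨⟨_, exteriorMap_of_beta hβ⟩, ?_⟩
  obtain ⟨a, ρ₀, ha, -, hdist⟩ := distG hd2 hA
  obtain ⟨C, hC, hup⟩ := upper hd2 hA
  rw [hc] at hdist hup
  refine ⟨a, C, ha, hC, fun ψ hψ => ⟨fun z h1 h2 => (hdist ψ hψ).2 z h1 h2, hup ψ hψ, ?_⟩⟩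
  intro F hF hE
  obtain ⟨ζ, hζ, hζc⟩ := boundary_point (d := d) (hup ψ hψ) hF hE
  have key : ∀ z : ℂ, 1 < ‖z‖ → ‖z‖ ≤ 2 →
      a ≤ ‖F z - F ζ‖ * (1 + Real.log (1 / (‖z‖ - 1))) := by
    intro z h1 h2
    rw [hζc, hE h1]
    exact (hdist ψ hψ).2 z h1 h2
  exact ⟨ζ, hζ, hζc, key, fun K κ hκ => not_holder hζ ha key hκ⟩

end Pool.Agent.Results.MP_fcb70f_an.EquipotentialsAtMinusOne
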