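import Mathlib
import Pool.Prelude.Def_F_c31e40fa
import Pool.Agent.Y736.HL8

set_option autoImplicit false

open Filter Topology Set N62a1eb23

namespace Pool.Agent.Results.MP_c6f924_an.HoelderVersusExpansion

open Pool.Agent.H713R2

/-- The exterior conformal map `ψ` of the Mandelbrot set `M` near an arbitrary parameter `c₀ ∈ M`,
compared with the expansion along the critical orbit `x m = f^[m] 0` of `f z = z ^ 2 + c₀`.

(1) If `|(f^[N])'(x m)| ≤ L ^ N` for all large `m` (some `N ≥ 1`, `L > 1`), then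
`‖w‖ - 1 ≤ C * ‖ψ w - c₀‖ ^ (log 2 / log L)`; hence, if `ψ` extends continuously to the circle (as
it does when `M` is locally connected), the extension has Hölder exponent at most `log L / log 2`
at every point `ζ` of the circle over `c₀`, even when restricted to the circle.

(2) If `|d/dc f_c^[n] 0| ≥ a * L ^ n` at `c₀` for all large `n`, the opposite inequality holds: for
every `ρ ≤ 1` there is a `w` with `‖ψ w - c₀‖ ≤ ρ` and `‖w‖ - 1 ≥ k * ρ ^ (log 2 / log L)`.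

(3) If the critical orbit converges to a parabolic cycle, then
`‖w‖ - 1 ≤ 12 * exp (-A / √‖ψ w - c₀‖)`, and the extension satisfies no Hölder condition at any
point of the circle over `c₀`.

(4) If `ψ` extends continuously, there are such points `ζ` over every boundary point of `M`. -/
theorem result :
    (∃ ψ : ℂ → ℂ, IsExteriorMap mandelbrotSet ψ) ∧
    ∀ c₀ : ℂ, c₀ ∈ mandelbrotSet →
      (∀ (N : ℕ) (L : ℝ), 1 ≤ N → 1 < L →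
        (∀ᶠ m : ℕ in atTop, ‖deriv ((fun z : ℂ => z ^ 2 + c₀)^[N])
          ((fun z : ℂ => z ^ 2 + c₀)^[m] 0)‖ ≤ L ^ N) →
        (∃ C : ℝ, 0 < C ∧ ∀ ψ : ℂ → ℂ, IsExteriorMap mandelbrotSet ψ → ∀ w : ℂ, 1 < ‖w‖ →
          ‖w‖ ≤ 2 → ‖w‖ - 1 ≤ C * ‖ψ w - c₀‖ ^ (Real.log 2 / Real.log L)) ∧
        ∀ ψ F : ℂ → ℂ, IsExteriorMap mandelbrotSet ψ → ContinuousOn F {w : ℂ | 1 ≤ ‖w‖} →
          (∀ w : ℂ, 1 < ‖w‖ → F w = ψ w) → ∀ ζ : ℂ, ‖ζ‖ = 1 → F ζ = c₀ →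
            ∀ α K : ℝ, 0 < α → (∀ ξ : ℂ, ‖ξ‖ = 1 → ‖F ξ - F ζ‖ ≤ K * ‖ξ - ζ‖ ^ α) →
              α ≤ Real.log L / Real.log 2) ∧
      (∀ a L : ℝ, 0 < a → 1 < L →
        (∀ᶠ n : ℕ in atTop,
          a * L ^ n ≤ ‖deriv (fun c : ℂ => (fun z : ℂ => z ^ 2 + c)^[n] 0) c₀‖) →
        ∃ k : ℝ, 0 < k ∧ ∀ ψ : ℂ → ℂ, IsExteriorMap mandelbrotSet ψ → ∀ ρ : ℝ, 0 < ρ → ρ ≤ 1 →
          ∃ w : ℂ, 1 < ‖w‖ ∧ ‖ψ w - c₀‖ ≤ ρ ∧
            k * ρ ^ (Real.log 2 / Real.log L) ≤ ‖w‖ - 1) ∧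
      (∀ (N : ℕ) (z₀ : ℂ), 1 ≤ N → (fun z : ℂ => z ^ 2 + c₀)^[N] z₀ = z₀ →
        deriv ((fun z : ℂ => z ^ 2 + c₀)^[N]) z₀ = 1 →
        Tendsto (fun k : ℕ => (fun z : ℂ => z ^ 2 + c₀)^[N * k] 0) atTop (𝓝 z₀) →
        (∃ A : ℝ, 0 < A ∧ ∀ ψ : ℂ → ℂ, IsExteriorMap mandelbrotSet ψ → ∀ w : ℂ, 1 < ‖w‖ →
          ‖w‖ ≤ 2 → ‖w‖ - 1 ≤ 12 * Real.exp (-(A / √‖ψ w - c₀‖))) ∧
        ∀ ψ F : ℂ → ℂ, IsExteriorMap mandelbrotSet ψ → ContinuousOn F {w : ℂ | 1 ≤ ‖w‖} →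
          (∀ w : ℂ, 1 < ‖w‖ → F w = ψ w) → ∀ ζ : ℂ, ‖ζ‖ = 1 → F ζ = c₀ →
            ∀ α K : ℝ, 0 < α → ¬ ∀ ξ : ℂ, ‖ξ‖ = 1 → ‖F ξ - F ζ‖ ≤ K * ‖ξ - ζ‖ ^ α) ∧
      (c₀ ∈ frontier mandelbrotSet → ∀ ψ F : ℂ → ℂ, IsExteriorMap mandelbrotSet ψ →
        ContinuousOn F {w : ℂ | 1 ≤ ‖w‖} → (∀ w : ℂ, 1 < ‖w‖ → F w = ψ w) →
          ∃ ζ : ℂ, ‖ζ‖ = 1 ∧ F ζ = c₀) := by
  obtain ⟨β, hβ⟩ := exists_beta (d := 2) le_rfl
  refine ⟨⟨_, exteriorMap_of_beta hβ⟩, ?_⟩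
  intro c₀ hc₀
  refine ⟨?_, ?_, ?_, ?_⟩
  · intro N L hN hL hev
    obtain ⟨C, hC, hD⟩ := Pool.Agent.Y736.HL.LL_of_eventually hc₀ hN hL.le (by
      filter_upwards [hev] with m hm
      rw [← Pool.Agent.Y736.HL.norm_deriv_iter]
      exact hm)
    refine ⟨Pool.Agent.Y736.HL.upper_pow hc₀ hL hC hD, ?_⟩
    intro ψ F hψ hF hE ζ hζ hFζ α K hα hK
    exact Pool.Agent.Y736.HL.holder_le hc₀ hL hC hD hψ hF hE hζ hFζ hα hK
  · intro a L ha hL hev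
    exact Pool.Agent.Y736.HL.lower_pow ha hL hev
  · intro N z₀ hN hfix hder hlim
    obtain ⟨C, hC⟩ := Pool.Agent.Y736.HL.parabolic_LL hc₀ hN hfix hder hlim
    refine ⟨Pool.Agent.Y736.HL.upper_exp hc₀ hC, ?_⟩
    intro ψ F hψ hF hE ζ hζ hFζ α K hα hK
    have hC0 : 0 < C := by
      have h1 := hC 0 0 le_rfl
      rw [Pool.Agent.Y736.HL.LL_self] at h1
      linarith
    have hlog2 : 0 < Real.log 2 := Real.log_pos (by norm_num)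
    have hL : 1 < Real.exp (α * Real.log 2 / 2) := by
      rw [Real.one_lt_exp_iff]
      positivity
    have h2 := Pool.Agent.Y736.HL.holder_le hc₀ hL hC0 (fun m n hmn => by
      have h3 := hC m n hmn
      have h4 : (1 : ℝ) ≤ Real.exp (α * Real.log 2 / 2) ^ (n - m) := one_le_pow₀ hL.le
      nlinarith) hψ hF hE hζ hFζ hα hK
    rw [Real.log_exp] at h2
    have h3 : α * Real.log 2 / 2 / Real.log 2 = α / 2 := by field_simp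
    rw [h3] at h2
    linarith
  · intro hfr ψ F hψ hF hE
    have hb : c₀ ∈ closure (multibrotSet 2)ᶜ := by
      rw [frontier_eq_closure_inter_closure] at hfr
      exact hfr.2
    exact Pool.Agent.Y736.HL.exists_angle hc₀ hb hψ hF hE

end Pool.Agent.Results.MP_c6f924_an.HoelderVersusExpansion
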